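import Pool.Agent.H35.CMP.Img2
import Pool.Agent.H36.KBX.Coef

/-!
# Minors and covectors

A covector which is orthogonal to `k` vectors with a `k × k` minor at least `ρ` is small on every
vector `v` such that all `(k + 1) × (k + 1)` minors with `v` as last column are at most `σ`.
-/

set_option autoImplicit false

namespace Pool.DYN83

open Finset MvPolynomial

/-- The minor with one more row and one more column. -/
noncomputable def mnr {c k : ℕ} (w : Fin k → Fin c → ℝ) (I : Fin k → Fin c) (v : Fin c → ℝ)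
    (i : Fin c) : ℝ :=
  (Matrix.of fun a b : Fin (k + 1) => (Fin.snoc w v : Fin (k + 1) → Fin c → ℝ) b
    ((Fin.snoc I i : Fin (k + 1) → Fin c) a)).det

/-- The Schur complement. -/
theorem mnr_eq {c k : ℕ} (w : Fin k → Fin c → ℝ) (I : Fin k → Fin c)
    (hI : (Matrix.of fun a b => w b (I a)).det ≠ 0) (v : Fin c → ℝ) :
    ∃ t : Fin k → ℝ, ∀ i, mnr w I v i =
      (Matrix.of fun a b => w b (I a)).det * (v i - ∑ b, w b i * t b) := by
  classical
  obtain ⟨A, hA⟩ : ∃ A : Matrix (Fin k) (Fin k) ℝ, A = Matrix.of fun a b => w b (I a) := ⟨_, rfl⟩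
  rw [← hA] at hI ⊢
  have : Invertible A := Matrix.invertibleOfIsUnitDet A (isUnit_iff_ne_zero.2 hI)
  refine ⟨fun b => ∑ a, (⅟A) b a * v (I a), fun i => ?_⟩
  have h1 : mnr w I v i = (Matrix.fromBlocks A (Matrix.of fun a (_ : Fin 1) => v (I a))
      (Matrix.of fun (_ : Fin 1) b => w b i) (Matrix.of fun (_ _ : Fin 1) => v i)).det := by
    unfold mnr
    rw [← Matrix.det_submatrix_equiv_self (finSumFinEquiv : Fin k ⊕ Fin 1 ≃ Fin (k + 1))]
    congr 1
    ext a b
    rcases a with a | a <;> rcases b with b | b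
    · simp only [Matrix.submatrix_apply, Matrix.of_apply, finSumFinEquiv_apply_left,
        Matrix.fromBlocks_apply₁₁]
      rw [show (Fin.castAdd 1 b : Fin (k + 1)) = Fin.castSucc b from rfl,
        show (Fin.castAdd 1 a : Fin (k + 1)) = Fin.castSucc a from rfl, Fin.snoc_castSucc,
        Fin.snoc_castSucc, hA]
      rfl
    · simp only [Matrix.submatrix_apply, Matrix.of_apply, finSumFinEquiv_apply_left,
        finSumFinEquiv_apply_right, Matrix.fromBlocks_apply₁₂]
      rw [show (Fin.natAdd k b : Fin (k + 1)) = Fin.last k from by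
          ext; simp [Fin.natAdd, Fin.last, Subsingleton.elim b 0],
        show (Fin.castAdd 1 a : Fin (k + 1)) = Fin.castSucc a from rfl, Fin.snoc_last,
        Fin.snoc_castSucc]
    · simp only [Matrix.submatrix_apply, Matrix.of_apply, finSumFinEquiv_apply_left,
        finSumFinEquiv_apply_right, Matrix.fromBlocks_apply₂₁]
      rw [show (Fin.natAdd k a : Fin (k + 1)) = Fin.last k from by
          ext; simp [Fin.natAdd, Fin.last, Subsingleton.elim a 0],
        show (Fin.castAdd 1 b : Fin (k + 1)) = Fin.castSucc b from rfl, Fin.snoc_last,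
        Fin.snoc_castSucc]
    · simp only [Matrix.submatrix_apply, Matrix.of_apply,
        finSumFinEquiv_apply_right, Matrix.fromBlocks_apply₂₂]
      rw [show (Fin.natAdd k a : Fin (k + 1)) = Fin.last k from by
          ext; simp [Fin.natAdd, Fin.last, Subsingleton.elim a 0],
        show (Fin.natAdd k b : Fin (k + 1)) = Fin.last k from by
          ext; simp [Fin.natAdd, Fin.last, Subsingleton.elim b 0], Fin.snoc_last,
        Fin.snoc_last]
  rw [h1, Matrix.det_fromBlocks₁₁]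
  congr 1
  rw [Matrix.det_fin_one]
  simp only [Matrix.sub_apply, Matrix.of_apply, Matrix.mul_apply]
  congr 1
  simp only [Finset.sum_mul, Finset.mul_sum]
  rw [Finset.sum_comm]
  refine Finset.sum_congr rfl fun a _ => Finset.sum_congr rfl fun b _ => ?_
  ring

/-- **The covector.** -/
theorem cov_res {c k : ℕ} (w : Fin k → Fin c → ℝ) (I : Fin k → Fin c) (v N : Fin c → ℝ)
    {ρ σ : ℝ} (hρ : 0 < ρ) (hI : ρ ≤ |(Matrix.of fun a b => w b (I a)).det|)
    (hσ : ∀ i, |mnr w I v i| ≤ σ) (hN : ∀ b, ∑ a, N a * w b a = 0) (hN1 : ∀ a, |N a| ≤ 1) :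
    |∑ a, N a * v a| ≤ c * σ / ρ := by
  obtain ⟨D, hD⟩ : ∃ D, D = (Matrix.of fun a b => w b (I a)).det := ⟨_, rfl⟩
  have hD0 : D ≠ 0 := by
    intro h
    rw [← hD, h, abs_zero] at hI
    linarith
  obtain ⟨t, ht⟩ := mnr_eq w I (hD ▸ hD0) v
  rw [← hD] at hI ht
  have h1 : ∀ i, |v i - ∑ b, w b i * t b| ≤ σ / ρ := by
    intro i
    have h2 := hσ i
    rw [ht i, abs_mul] at h2
    rw [le_div_iff₀ hρ]
    calc _ ≤ |v i - ∑ b, w b i * t b| * |D| :=
          mul_le_mul_of_nonneg_left hI (abs_nonneg _)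
      _ ≤ σ := by rw [mul_comm]; exact h2
  have h3 : ∑ a, N a * v a = ∑ a, N a * (v a - ∑ b, w b a * t b) := by
    have h4 : ∑ a, N a * (∑ b, w b a * t b) = 0 := by
      have h5 : ∑ a, N a * (∑ b, w b a * t b) = ∑ b, t b * ∑ a, N a * w b a := by
        simp only [Finset.mul_sum]
        rw [Finset.sum_comm]
        refine Finset.sum_congr rfl fun b _ => Finset.sum_congr rfl fun a _ => ?_
        ring
      rw [h5]
      exact Finset.sum_eq_zero fun b _ => by rw [hN b, mul_zero]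
    simp only [mul_sub]
    rw [Finset.sum_sub_distrib, h4, sub_zero]
  rw [h3]
  calc _ ≤ ∑ a, |N a * (v a - ∑ b, w b a * t b)| := Finset.abs_sum_le_sum_abs _ _
    _ ≤ ∑ _a : Fin c, σ / ρ := by
        refine Finset.sum_le_sum fun a _ => ?_
        rw [abs_mul]
        calc _ ≤ 1 * |v a - ∑ b, w b a * t b| :=
              mul_le_mul_of_nonneg_right (hN1 a) (abs_nonneg _)
          _ ≤ σ / ρ := by rw [one_mul]; exact h1 a
    _ = c * σ / ρ := by
        rw [Finset.sum_const, Finset.card_univ, Fintype.card_fin, nsmul_eq_mul]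
        ring

/-- **The covector, for polynomials.** -/
theorem cov_poly (d K : ℕ) : ∃ C : ℝ, 0 ≤ C ∧ ∀ (c k : ℕ) (w : Fin k → Fin c → ℝ)
    (I : Fin k → Fin c) (Q : Fin c → MvPolynomial (Fin d) ℝ) (N : Fin c → ℝ) (ρ σ : ℝ), 0 < ρ →
    ρ ≤ |(Matrix.of fun a b => w b (I a)).det| → (∀ a, (Q a).totalDegree ≤ K) →
    (∀ (z : Fin d → ℝ), (∀ j, |z j| ≤ 1) → ∀ b i,
      |mnr w I (fun a => eval z (pderiv b (Q a))) i| ≤ σ) →
    (∀ b, ∑ a, N a * w b a = 0) → (∀ a, |N a| ≤ 1) →
    ∀ m, m ≠ 0 → |coeff m (∑ a, MvPolynomial.C (N a) * Q a)| ≤ C * (c * σ / ρ) := by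
  classical
  obtain ⟨C₁, hC₁, hcf⟩ := Pool.Agent.H36.KBX.coef_bound d K
  refine ⟨C₁ * d, by positivity, ?_⟩
  intro c k w I Q N ρ σ hρ hI hdeg hσ hN hN1 m hm
  obtain ⟨q, hq⟩ : ∃ q : MvPolynomial (Fin d) ℝ, q = ∑ a, MvPolynomial.C (N a) * Q a := ⟨_, rfl⟩
  rw [← hq]
  have hqd : q.totalDegree ≤ K := by
    rw [hq]
    refine (totalDegree_finsetSum _ _).trans (Finset.sup_le fun a _ => ?_)
    refine (totalDegree_mul _ _).trans ?_
    rw [totalDegree_C, zero_add]
    exact hdeg a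
  have hp : ∀ b z, eval z (pderiv b q) = ∑ a, N a * eval z (pderiv b (Q a)) := by
    intro b z
    rw [hq, map_sum, map_sum]
    refine Finset.sum_congr rfl fun a _ => ?_
    rw [pderiv_C_mul, map_mul, eval_C]
  have h1 : ∀ z : Fin d → ℝ, (∀ j, |z j| ≤ 1) → |eval z q - eval 0 q| ≤ d * (c * σ / ρ) := by
    intro z hz
    refine Pool.CMP35.slot_deriv (q := q) (N := c * σ / ρ) hz fun b u hu => ?_
    rw [hp b u]
    exact cov_res w I _ N hρ hI (hσ u hu b) hN hN1
  have h2 := hcf (q - MvPolynomial.C (eval 0 q)) (d * (c * σ / ρ))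
    ((totalDegree_sub _ _).trans (max_le hqd (by rw [totalDegree_C]; exact Nat.zero_le _)))
    (fun z hz => by
      rw [map_sub, eval_C]
      exact h1 z hz) m
  rw [coeff_sub, coeff_C, if_neg (fun h => hm h.symm), sub_zero] at h2
  linarith

end Pool.DYN83
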